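import Pool.Agent.H82.PRP.Stmts

/-!
# CMP: compatibility, surjectivity, closedness
-/

namespace Pool.Agent.H82.PRP

namespace CMP

variable {p : ℕ} [Fact p.Prime]

/-- two homomorphisms which kill some `D n` and agree on the generators are equal -/
theorem hom_ext {F : Type} [Group F] [TopologicalSpace F] {gen : Fin 3 → F}
    {D : ℕ → Subgroup F} (hF : FPP p F gen D) {P : Type} [Group P] (f g : F →* P)
    (hf : ∃ n, D n ≤ f.ker) (hg : ∃ n, D n ≤ g.ker) (h : ∀ i, f (gen i) = g (gen i)) : f = g := by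
  obtain ⟨n, hn⟩ := hf
  obtain ⟨n', hn'⟩ := hg
  have htop : f.eqLocus g = ⊤ := by
    rw [eq_top_iff, ← hF.dense (max n n'), sup_le_iff]
    constructor
    · rw [Subgroup.closure_le]
      rintro x ⟨i, rfl⟩
      exact h i
    · intro d hd
      have h1 : f d = 1 := hn (hF.anti (le_max_left n n') hd)
      have h2 : g d = 1 := hn' (hF.anti (le_max_right n n') hd)
      change f d = g d
      rw [h1, h2]
  ext w
  have hw : w ∈ f.eqLocus g := htop ▸ Subgroup.mem_top w
  exact hw

/-- the projection as a homomorphism -/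
noncomputable def projHom (hLPR : LPRStmt) {m m' : ℕ} (h : m ≤ m') : Lamp p m' →* Lamp p m where
  toFun := lampProj p h
  map_one' := (hLPR p m m' h).2.2.2
  map_mul' := (hLPR p m m' h).1

/-- the projection of the groups `E1` -/
noncomputable def e1Hom (hLPR : LPRStmt) {m m' : ℕ} (h : m ≤ m') :
    E1 p (Lamp p m') →* E1 p (Lamp p m) where
  toFun x := ⟨MonoidAlgebra.mapDomainAlgHom (ZMod p) (ZMod p) (projHom hLPR h) x.u,
    projHom hLPR h x.q⟩
  map_one' := by
    ext1
    · simp only [E1.one_u, map_zero]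
    · simp only [E1.one_q, map_one]
  map_mul' := by
    intro a b
    ext1
    · simp only [E1.mul_u, map_add, map_mul]
      simp
    · simp only [E1.mul_q, map_mul]

/-- the projection `E1 p Q → Q` -/
def qHom (Q : Type) [Group Q] : E1 p Q →* Q where
  toFun x := x.q
  map_one' := rfl
  map_mul' _ _ := rfl

/-- the section `Q → E1 p Q` -/
noncomputable def sHom (Q : Type) [Group Q] : Q →* E1 p Q where
  toFun q := ⟨0, q⟩
  map_one' := rfl
  map_mul' a b := by
    ext1
    · simp
    · simp

variable {m : ℕ}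

theorem lampX_pow (n : ℕ) : lampX p m ^ n = ⟨0, (n : ZMod (p ^ m))⟩ := by
  induction n with
  | zero =>
    ext i <;> simp
  | succ n ih =>
    rw [pow_succ, ih]
    ext i <;> simp [lampX]

theorem lampYs_eq (s : ℕ) :
    lampYs p m s = ⟨Pi.single (s : ZMod (p ^ m)) 1, 0⟩ := by
  unfold lampYs
  rw [lampX_pow]
  ext i
  · simp only [Lamp.mul_lamp, Lamp.inv_lamp, lampY, Pi.zero_apply, zero_add, neg_zero, add_zero]
    rw [Pi.single_apply, Pi.single_apply]
    by_cases hi : i = (s : ZMod (p ^ m))
    · simp [hi]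
    · simp [hi, sub_eq_zero]
  · simp [lampY]

theorem gen_top (H : Subgroup (Lamp p m)) (hX : lampX p m ∈ H) (hY : lampY p m ∈ H) : H = ⊤ := by
  have hs : ∀ s : ZMod (p ^ m), (⟨Pi.single s 1, 0⟩ : Lamp p m) ∈ H := by
    intro s
    have h1 : lampYs p m s.val ∈ H :=
      H.mul_mem (H.mul_mem (H.pow_mem hX _) hY) (H.inv_mem (H.pow_mem hX _))
    rw [lampYs_eq, ZMod.natCast_zmod_val] at h1
    exact h1
  let K : AddSubgroup (ZMod (p ^ m) → ZMod p) :=
    { carrier := {a | (⟨a, 0⟩ : Lamp p m) ∈ H}
      add_mem' := by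
        intro a b ha hb
        have h := H.mul_mem ha hb
        have h2 : (⟨a, 0⟩ : Lamp p m) * ⟨b, 0⟩ = ⟨a + b, 0⟩ := by
          ext i <;> simp
        rw [h2] at h
        exact h
      zero_mem' := H.one_mem
      neg_mem' := by
        intro a ha
        have h := H.inv_mem ha
        have h2 : (⟨a, 0⟩ : Lamp p m)⁻¹ = ⟨-a, 0⟩ := by
          ext i <;> simp
        rw [h2] at h
        exact h }
  have hK : ∀ a, a ∈ K := by
    intro a
    rw [← Finset.univ_sum_single a]
    apply AddSubgroup.sum_mem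
    intro i _
    have h1 : Pi.single i (a i) = (a i).val • (Pi.single i 1 : ZMod (p ^ m) → ZMod p) := by
      funext j
      rw [Pi.smul_apply, Pi.single_apply, Pi.single_apply]
      split_ifs
      · rw [nsmul_eq_mul, mul_one, ZMod.natCast_zmod_val]
      · rw [smul_zero]
    rw [h1]
    exact K.nsmul_mem (hs i) _
  rw [eq_top_iff]
  rintro ⟨a, s⟩ -
  have h1 : (⟨a, s⟩ : Lamp p m) = ⟨a, 0⟩ * lampX p m ^ s.val := by
    rw [lampX_pow, ZMod.natCast_zmod_val]
    ext i <;> simp
  rw [h1]
  exact H.mul_mem (hK a) (H.pow_mem hX _)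

theorem gen_top_E (H : Subgroup (E1 p (Lamp p m))) (hX : (⟨0, lampX p m⟩ : E1 p (Lamp p m)) ∈ H)
    (hY : (⟨0, lampY p m⟩ : E1 p (Lamp p m)) ∈ H) (h1 : (⟨1, 1⟩ : E1 p (Lamp p m)) ∈ H) :
    H = ⊤ := by
  have hq : ∀ q : Lamp p m, (⟨0, q⟩ : E1 p (Lamp p m)) ∈ H := by
    intro q
    have h2 : H.comap (sHom (p := p) (Lamp p m)) = ⊤ := gen_top _ hX hY
    have h3 : q ∈ H.comap (sHom (p := p) (Lamp p m)) := h2 ▸ Subgroup.mem_top q
    exact h3
  let K : AddSubgroup (MonoidAlgebra (ZMod p) (Lamp p m)) :=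
    { carrier := {a | (⟨a, 1⟩ : E1 p (Lamp p m)) ∈ H}
      add_mem' := by
        intro a b ha hb
        have h := H.mul_mem ha hb
        have h2 : (⟨a, 1⟩ : E1 p (Lamp p m)) * ⟨b, 1⟩ = ⟨a + b, 1⟩ := by
          ext1
          · rw [E1.mul_u, map_one, one_mul]
          · rw [E1.mul_q, one_mul]
        rw [h2] at h
        exact h
      zero_mem' := H.one_mem
      neg_mem' := by
        intro a ha
        have h := H.inv_mem ha
        have h2 : (⟨a, 1⟩ : E1 p (Lamp p m))⁻¹ = ⟨-a, 1⟩ := by
          ext1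
          · rw [E1.inv_u, inv_one, map_one, one_mul]
          · rw [E1.inv_q, inv_one]
        rw [h2] at h
        exact h }
  have hK : ∀ a, a ∈ K := by
    intro a
    induction a using MonoidAlgebra.induction_on with
    | of q =>
      have h := H.mul_mem (H.mul_mem (hq q) h1) (H.inv_mem (hq q))
      have h2 : (⟨0, q⟩ : E1 p (Lamp p m)) * ⟨1, 1⟩ * (⟨0, q⟩ : E1 p (Lamp p m))⁻¹
          = ⟨MonoidAlgebra.of (ZMod p) _ q, 1⟩ := by
        ext1
        · simp only [E1.mul_u, E1.inv_u, mul_zero, neg_zero, zero_add, mul_one, add_zero]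
        · simp only [E1.mul_q, E1.inv_q, mul_one, mul_inv_cancel]
      rw [h2] at h
      exact h
    | add a b ha hb => exact K.add_mem ha hb
    | smul r a ha =>
      have h2 : r • a = r.val • a := by
        rw [← Nat.cast_smul_eq_nsmul (ZMod p), ZMod.natCast_zmod_val]
      rw [h2]
      exact K.nsmul_mem ha _
  rw [eq_top_iff]
  rintro ⟨u, q⟩ -
  have h2 : (⟨u, q⟩ : E1 p (Lamp p m)) = ⟨u, 1⟩ * ⟨0, q⟩ := by
    ext1
    · simp
    · simp
  rw [h2]
  exact H.mul_mem (hK u) (hq q)

theorem closed_ker {F : Type} [Group F] [TopologicalSpace F] [IsTopologicalGroup F]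
    {gen : Fin 3 → F} {D : ℕ → Subgroup F} (hF : FPP p F gen D) {P : Type} [Group P] (f : F →* P)
    (hf : ∃ n, D n ≤ f.ker) : IsClosed (f.ker : Set F) := by
  obtain ⟨n, hn⟩ := hf
  exact Subgroup.isClosed_of_isOpen _ (Subgroup.isOpen_mono hn (hF.isOpen n))

end CMP

open CMP in
theorem cmp_thm (hLPR : LPRStmt) : CMPStmt := by
  intro p _ F _ _ _ _ _ gen D hF α β hα hβ
  have h4 : ∀ m w, (β m w).q = α m w := by
    intro m w
    have h := hom_ext hF ((qHom (p := p) (Lamp p m)).comp (β m)) (α m)
      (by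
        obtain ⟨n, hn⟩ := hβ.cont m
        refine ⟨n, fun d hd => ?_⟩
        have h1 : β m d = 1 := hn hd
        change qHom (p := p) (Lamp p m) (β m d) = 1
        rw [h1, map_one])
      (hα.cont m)
      (by
        intro i
        change (β m (gen i)).q = α m (gen i)
        fin_cases i
        · change (β m (gen 0)).q = α m (gen 0)
          rw [hβ.gen0, hα.gen0]
        · change (β m (gen 1)).q = α m (gen 1)
          rw [hβ.gen1, hα.gen1]
        · change (β m (gen 2)).q = α m (gen 2)
          rw [hβ.gen2, hα.gen2])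
    exact DFunLike.congr_fun h w
  have h1 : ∀ (m m' : ℕ) (h : m ≤ m') (w : F), α m w = lampProj p h (α m' w) := by
    intro m m' h w
    have h' := hom_ext hF (α m) ((projHom hLPR h).comp (α m')) (hα.cont m)
      (by
        obtain ⟨n, hn⟩ := hα.cont m'
        refine ⟨n, fun d hd => ?_⟩
        have h1 : α m' d = 1 := hn hd
        change projHom hLPR h (α m' d) = 1
        rw [h1, map_one])
      (by
        intro i
        change α m (gen i) = lampProj p h (α m' (gen i))
        fin_cases i
        · change α m (gen 0) = lampProj p h (α m' (gen 0))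
          rw [hα.gen0, hα.gen0, (hLPR p m m' h).2.1]
        · change α m (gen 1) = lampProj p h (α m' (gen 1))
          rw [hα.gen1, hα.gen1, (hLPR p m m' h).2.2.1]
        · change α m (gen 2) = lampProj p h (α m' (gen 2))
          rw [hα.gen2, hα.gen2, (hLPR p m m' h).2.2.2])
    exact DFunLike.congr_fun h' w
  have h6 : ∀ (m m' : ℕ) (h : m ≤ m') (w : F), β m w = e1Hom hLPR h (β m' w) := by
    intro m m' h w
    have h' := hom_ext hF (β m) ((e1Hom hLPR h).comp (β m')) (hβ.cont m)
      (by
        obtain ⟨n, hn⟩ := hβ.cont m'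
        refine ⟨n, fun d hd => ?_⟩
        have h1 : β m' d = 1 := hn hd
        change e1Hom hLPR h (β m' d) = 1
        rw [h1, map_one])
      (by
        intro i
        change β m (gen i) = e1Hom hLPR h (β m' (gen i))
        fin_cases i
        · change β m (gen 0) = e1Hom hLPR h (β m' (gen 0))
          rw [hβ.gen0, hβ.gen0]
          ext1
          · change (0 : MonoidAlgebra (ZMod p) (Lamp p m)) =
              MonoidAlgebra.mapDomainAlgHom (ZMod p) (ZMod p) (projHom hLPR h) 0
            rw [map_zero]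
          · change lampX p m = lampProj p h (lampX p m')
            rw [(hLPR p m m' h).2.1]
        · change β m (gen 1) = e1Hom hLPR h (β m' (gen 1))
          rw [hβ.gen1, hβ.gen1]
          ext1
          · change (0 : MonoidAlgebra (ZMod p) (Lamp p m)) =
              MonoidAlgebra.mapDomainAlgHom (ZMod p) (ZMod p) (projHom hLPR h) 0
            rw [map_zero]
          · change lampY p m = lampProj p h (lampY p m')
            rw [(hLPR p m m' h).2.2.1]
        · change β m (gen 2) = e1Hom hLPR h (β m' (gen 2))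
          rw [hβ.gen2, hβ.gen2]
          ext1
          · change (1 : MonoidAlgebra (ZMod p) (Lamp p m)) =
              MonoidAlgebra.mapDomainAlgHom (ZMod p) (ZMod p) (projHom hLPR h) 1
            rw [map_one]
          · change (1 : Lamp p m) = lampProj p h 1
            rw [(hLPR p m m' h).2.2.2])
    exact DFunLike.congr_fun h' w
  refine ⟨h1, ?_, ?_, h4, ?_, ?_, fun m => closed_ker hF (α m) (hα.cont m),
    fun m => closed_ker hF (β m) (hβ.cont m), ?_⟩
  · intro m
    rw [← MonoidHom.range_eq_top]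
    exact gen_top _ ⟨gen 0, hα.gen0 m⟩ ⟨gen 1, hα.gen1 m⟩
  · intro m
    rw [← MonoidHom.range_eq_top]
    exact gen_top_E _ ⟨gen 0, hβ.gen0 m⟩ ⟨gen 1, hβ.gen1 m⟩ ⟨gen 2, hβ.gen2 m⟩
  · intro m m' h w hw
    have h2 : α m' w = 1 := hw
    change α m w = 1
    rw [h1 m m' h w, h2, (hLPR p m m' h).2.2.2]
  · intro m m' h w hw
    have h2 : β m' w = 1 := hw
    change β m w = 1
    rw [h6 m m' h w, h2, map_one]
  · intro w hw
    rw [N1, Subgroup.mem_iInf] at hw
    rw [NQ, Subgroup.mem_iInf]
    intro m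
    have h2 : β m w = 1 := hw m
    change α m w = 1
    rw [← h4 m w, h2]
    rfl

end Pool.Agent.H82.PRP
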