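import Pool.Agent.H82.PRP.Stmts

/-!
# NILP: the augmentation ideal of a finite p-group is nilpotent
-/

namespace Pool.Agent.H82.PRP

namespace NILP

variable {p : ℕ} [Fact p.Prime] {P : Type} [Group P]

theorem augMap_of (g : P) : augMap p P (MonoidAlgebra.of (ZMod p) P g) = 1 := by
  simp [augMap]

/-- the key congruence -/
theorem key (W : Submodule (ZMod p) (MonoidAlgebra (ZMod p) P)) (v : MonoidAlgebra (ZMod p) P)
    (hv : ∀ g : P, MonoidAlgebra.of (ZMod p) P g * v - v ∈ W) (f : MonoidAlgebra (ZMod p) P) :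
    f * v - (augMap p P f) • v ∈ W := by
  induction f using MonoidAlgebra.induction_on with
  | of g =>
    rw [augMap_of, one_smul]
    exact hv g
  | add a b ha hb =>
    have h : (a + b) * v - (augMap p P (a + b)) • v
        = (a * v - (augMap p P a) • v) + (b * v - (augMap p P b) • v) := by
      rw [map_add, add_mul, add_smul]
      abel
    rw [h]
    exact W.add_mem ha hb
  | smul r a ha =>
    have h : (r • a) * v - (augMap p P (r • a)) • v = r • (a * v - (augMap p P a) • v) := by
      rw [map_smul, smul_mul_assoc, smul_sub, smul_eq_mul, mul_smul]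
    rw [h]
    exact W.smul_mem r ha

theorem stab (W : Submodule (ZMod p) (MonoidAlgebra (ZMod p) P))
    (hW : ∀ g : P, ∀ w ∈ W, MonoidAlgebra.of (ZMod p) P g * w ∈ W) (f : MonoidAlgebra (ZMod p) P)
    (w : MonoidAlgebra (ZMod p) P) (hw : w ∈ W) : f * w ∈ W := by
  have h := key W w (fun g => W.sub_mem (hW g w hw) hw) f
  have h2 := W.add_mem h (W.smul_mem (augMap p P f) hw)
  rwa [sub_add_cancel] at h2

/-- the action of `P` on the quotient by a stable subspace -/
@[instance_reducible] noncomputable def act (W : Submodule (ZMod p) (MonoidAlgebra (ZMod p) P))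
    (hW : ∀ g : P, ∀ w ∈ W, MonoidAlgebra.of (ZMod p) P g * w ∈ W) :
    MulAction P (MonoidAlgebra (ZMod p) P ⧸ W) where
  smul g x := W.mapQ W (LinearMap.mulLeft (ZMod p) (MonoidAlgebra.of (ZMod p) P g))
    (fun w hw => hW g w hw) x
  one_smul x := by
    obtain ⟨v, rfl⟩ := Submodule.mkQ_surjective W x
    change W.mapQ W _ _ (W.mkQ v) = W.mkQ v
    rw [Submodule.mkQ_apply, Submodule.mapQ_apply, LinearMap.mulLeft_apply, map_one, one_mul]
  mul_smul g h x := by
    obtain ⟨v, rfl⟩ := Submodule.mkQ_surjective W x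
    change W.mapQ W _ _ (W.mkQ v) = W.mapQ W _ _ (W.mapQ W _ _ (W.mkQ v))
    rw [Submodule.mkQ_apply, Submodule.mapQ_apply, Submodule.mapQ_apply, Submodule.mapQ_apply,
      LinearMap.mulLeft_apply, LinearMap.mulLeft_apply, LinearMap.mulLeft_apply, map_mul, mul_assoc]

theorem exists_fixed [Finite P] (hP : IsPGroup p P)
    (W : Submodule (ZMod p) (MonoidAlgebra (ZMod p) P))
    (hW : ∀ g : P, ∀ w ∈ W, MonoidAlgebra.of (ZMod p) P g * w ∈ W) (hne : W ≠ ⊤) :
    ∃ v, v ∉ W ∧ ∀ g : P, MonoidAlgebra.of (ZMod p) P g * v - v ∈ W := by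
  have hfin : Module.Finite (ZMod p) (MonoidAlgebra (ZMod p) P) := inferInstance
  have hfinQ : Finite (MonoidAlgebra (ZMod p) P ⧸ W) := Module.finite_of_finite (ZMod p)
  letI : MulAction P (MonoidAlgebra (ZMod p) P ⧸ W) := act W hW
  have hnt : Nontrivial (MonoidAlgebra (ZMod p) P ⧸ W) := Submodule.Quotient.nontrivial_iff.mpr hne
  have hcard : p ∣ Nat.card (MonoidAlgebra (ZMod p) P ⧸ W) := by
    rw [Module.natCard_eq_pow_finrank (K := ZMod p), Nat.card_zmod]
    exact dvd_pow_self p (Module.finrank_pos).ne'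
  have h0 : (0 : MonoidAlgebra (ZMod p) P ⧸ W) ∈
      MulAction.fixedPoints P (MonoidAlgebra (ZMod p) P ⧸ W) := by
    intro g
    exact map_zero (W.mapQ W (LinearMap.mulLeft (ZMod p) (MonoidAlgebra.of (ZMod p) P g))
      (fun w hw => hW g w hw))
  obtain ⟨b, hb, hb0⟩ := hP.exists_fixed_point_of_prime_dvd_card_of_fixed_point _ hcard h0
  obtain ⟨v, rfl⟩ := Submodule.mkQ_surjective W b
  refine ⟨v, ?_, ?_⟩
  · intro hv
    apply hb0
    rw [Submodule.mkQ_apply, (Submodule.Quotient.mk_eq_zero W).mpr hv]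
  · intro g
    have h1 : W.mapQ W (LinearMap.mulLeft (ZMod p) (MonoidAlgebra.of (ZMod p) P g))
      (fun w hw => hW g w hw) (W.mkQ v) = W.mkQ v := hb g
    rw [Submodule.mkQ_apply, Submodule.mapQ_apply] at h1
    exact (Submodule.Quotient.eq W).mp h1

theorem main [Finite P] (hP : IsPGroup p P) (W : Submodule (ZMod p) (MonoidAlgebra (ZMod p) P)) :
    (∀ g : P, ∀ w ∈ W, MonoidAlgebra.of (ZMod p) P g * w ∈ W) →
    ∃ k, ∀ a ∈ (augI p P) ^ k, ∀ v, a * v ∈ W := by
  have hfin : Module.Finite (ZMod p) (MonoidAlgebra (ZMod p) P) := inferInstance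
  induction W using WellFoundedGT.induction with
  | ind W ih =>
    intro hW
    by_cases hne : W = ⊤
    · exact ⟨0, fun a _ v => hne ▸ Submodule.mem_top⟩
    · obtain ⟨v, hvW, hv⟩ := exists_fixed hP W hW hne
      have hlt : W < W ⊔ Submodule.span (ZMod p) {v} := by
        refine lt_of_le_of_ne le_sup_left ?_
        intro h
        apply hvW
        rw [h]
        exact Submodule.mem_sup_right (Submodule.mem_span_singleton_self v)
      obtain ⟨k, hk⟩ := ih _ hlt (by
        intro g w hw
        obtain ⟨w1, hw1, w2, hw2, rfl⟩ := Submodule.mem_sup.mp hw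
        obtain ⟨c, rfl⟩ := Submodule.mem_span_singleton.mp hw2
        have h : MonoidAlgebra.of (ZMod p) P g * (w1 + c • v)
            = (MonoidAlgebra.of (ZMod p) P g * w1 + c • (MonoidAlgebra.of (ZMod p) P g * v - v))
              + c • v := by
          rw [mul_add, mul_smul_comm, smul_sub]
          abel
        rw [h]
        exact Submodule.add_mem_sup (W.add_mem (hW g w1 hw1) (W.smul_mem c (hv g)))
          (Submodule.smul_mem _ c (Submodule.mem_span_singleton_self v)))
      refine ⟨k + 1, ?_⟩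
      intro a ha v'
      rw [pow_succ'] at ha
      induction ha using Submodule.mul_induction_on' with
      | mem_mul_mem c hc b hb =>
        rw [mul_assoc]
        obtain ⟨w1, hw1, w2, hw2, h12⟩ := Submodule.mem_sup.mp (hk b hb v')
        obtain ⟨l, rfl⟩ := Submodule.mem_span_singleton.mp hw2
        rw [← h12, mul_add, mul_smul_comm]
        refine W.add_mem (stab W hW c w1 hw1) (W.smul_mem l ?_)
        have h := key W v hv c
        have hc0 : augMap p P c = 0 := hc
        rw [hc0, zero_smul, sub_zero] at h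
        exact h
      | add x _ y _ hx hy =>
        rw [add_mul]
        exact W.add_mem hx hy

end NILP

theorem nilp_thm : NILPStmt := by
  intro p _ P _ _ hP
  obtain ⟨k, hk⟩ := NILP.main hP (⊥ : Submodule (ZMod p) (MonoidAlgebra (ZMod p) P))
    (by
      intro g w hw
      rw [Submodule.mem_bot] at hw ⊢
      rw [hw, mul_zero])
  refine ⟨k + 1, by omega, ?_⟩
  have h : (augI p P) ^ k = ⊥ := by
    rw [eq_bot_iff]
    intro a ha
    have := hk a ha 1
    rwa [mul_one] at this
  rw [pow_succ, h, Submodule.bot_mul]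

end Pool.Agent.H82.PRP
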