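import Pool.Agent.H82.PRP.Stmts

/-!
# TERM: explicit solution for a monomial
-/

namespace Pool.Agent.H82.PRP

namespace TERM

open scoped Classical in
/-- one difference in the coordinate `j` -/
noncomputable def dl {ι R : Type} [CommRing R] (j : ι) (F : (ι → R) → R) : (ι → R) → R :=
  fun a => F (fun i => a i + if i = j then 1 else 0) - F a

/-- iterated differences -/
noncomputable def DL {ι R : Type} [CommRing R] : List ι → ((ι → R) → R) → (ι → R) → R
  | [], F => F
  | j :: J, F => dl j (DL J F)

variable {ι R : Type} [CommRing R]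

theorem dl_zero (j : ι) : dl j (0 : (ι → R) → R) = 0 := by
  funext a
  simp [dl]

/-- independence of the coordinate `j` -/
def Ind (j : ι) (F : (ι → R) → R) : Prop :=
  ∀ a b : ι → R, (∀ i, i ≠ j → a i = b i) → F a = F b

theorem Ind.dl_eq {j : ι} {F : (ι → R) → R} (h : Ind j F) : dl j F = 0 := by
  funext a
  have : F (fun i => a i + @ite _ (i = j) (Classical.propDecidable _) 1 0) = F a := by
    apply h
    intro i hi
    simp [hi]
  simp only [dl, Pi.zero_apply]
  rw [this, sub_self]

theorem Ind.dl {j j' : ι} {F : (ι → R) → R} (h : Ind j F) : Ind j (dl j' F) := by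
  intro a b hab
  simp only [TERM.dl]
  rw [h a b hab, h _ (fun i => b i + @ite _ (i = j') (Classical.propDecidable _) 1 0)]
  intro i hi
  rw [hab i hi]

theorem Ind.DL {j : ι} {J : List ι} {F : (ι → R) → R} (h : Ind j F) : Ind j (DL J F) := by
  induction J with
  | nil => exact h
  | cons j' J ih => exact ih.dl

theorem DL_of_ind {j : ι} {J : List ι} {F : (ι → R) → R} (h : Ind j F) (hj : j ∈ J) :
    DL J F = 0 := by
  induction J with
  | nil => simp at hj
  | cons j' J ih =>
    by_cases hJ : j ∈ J
    · simp only [DL]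
      rw [ih hJ, dl_zero]
    · have : j = j' := by
        rcases List.mem_cons.mp hj with h1 | h1
        · exact h1
        · exact absurd h1 hJ
      subst this
      exact h.DL.dl_eq

theorem ind_prod {j : ι} {T : List ι} (h : j ∉ T) :
    Ind j (fun a : ι → R => (T.map a).prod) := by
  intro a b hab
  have : T.map a = T.map b := by
    apply List.map_congr_left
    intro x hx
    exact hab x (fun h' => h (h' ▸ hx))
  simp only [this]

/-- the surviving term -/
theorem DL_full (J : List ι) : ∀ ψ : (ι → R) → R, J.Nodup → (∀ j ∈ J, Ind j ψ) →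
    DL J (fun a => ψ a * (J.map a).prod) = ψ := by
  induction J with
  | nil =>
    intro ψ _ _
    funext a
    simp [DL]
  | cons j J ih =>
    intro ψ hnd hψ
    rw [List.nodup_cons] at hnd
    have h1 : (fun a : ι → R => ψ a * ((j :: J).map a).prod)
        = fun a => (ψ a * a j) * (J.map a).prod := by
      funext a
      rw [List.map_cons, List.prod_cons, mul_assoc]
    have h2 := ih (fun a => ψ a * a j) hnd.2 (by
      intro j' hj' a b hab
      have h3 := hψ j' (List.mem_cons_of_mem j hj') a b hab
      have h4 : a j = b j := hab j (by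
        rintro rfl
        exact hnd.1 hj')
      simp only
      rw [h3, h4])
    simp only [DL]
    rw [h1, h2]
    funext a
    have h5 : ψ (fun i => a i + @ite _ (i = j) (Classical.propDecidable _) 1 0) = ψ a := by
      apply hψ j List.mem_cons_self
      intro i hi
      simp [hi]
    simp only [dl]
    rw [h5]
    simp only [if_true]
    ring

/-- degree less than `e` -/
def Dg : ℕ → ((ι → R) → R) → Prop
  | 0, F => F = 0
  | (e + 1), F => ∀ j, Dg e (dl j F)

theorem dg_zero (e : ℕ) : Dg e (0 : (ι → R) → R) := by
  induction e with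
  | zero => rfl
  | succ e ih =>
    intro j
    rw [dl_zero]
    exact ih

theorem dl_add (j : ι) (F G : (ι → R) → R) : dl j (F + G) = dl j F + dl j G := by
  funext a
  simp only [dl, Pi.add_apply]
  ring

theorem Dg.add {e : ℕ} : ∀ {F G : (ι → R) → R}, Dg e F → Dg e G → Dg e (F + G) := by
  induction e with
  | zero =>
    intro F G hF hG
    simp only [Dg] at hF hG ⊢
    rw [hF, hG, add_zero]
  | succ e ih =>
    intro F G hF hG j
    rw [dl_add]
    exact ih (hF j) (hG j)

theorem Dg.succ {e : ℕ} : ∀ {F : (ι → R) → R}, Dg e F → Dg (e + 1) F := by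
  induction e with
  | zero =>
    intro F hF j
    simp only [Dg] at hF ⊢
    rw [hF, dl_zero]
  | succ e ih =>
    intro F hF j
    exact ih (hF j)

theorem Dg.coord {e : ℕ} (t : ι) : ∀ {F : (ι → R) → R}, Dg e F →
    Dg (e + 1) (fun a => a t * F a) := by
  induction e with
  | zero =>
    intro F hF j
    simp only [Dg] at hF ⊢
    subst hF
    funext a
    simp [dl]
  | succ e ih =>
    intro F hF j
    by_cases htj : t = j
    · have h : dl j (fun a => a t * F a) = (fun a => a t * dl j F a) + (F + dl j F) := by
        funext a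
        simp only [dl, Pi.add_apply, htj, if_true]
        ring
      rw [h]
      exact (ih (hF j)).add (hF.add (hF j).succ)
    · have h : dl j (fun a => a t * F a) = (fun a => a t * dl j F a) := by
        funext a
        simp only [dl, htj, if_false]
        ring
      rw [h]
      exact ih (hF j)

theorem dg_prod (T : List ι) : Dg (T.length + 1) (fun a : ι → R => (T.map a).prod) := by
  induction T with
  | nil =>
    intro j
    simp only [List.length_nil, Dg]
    funext a
    simp [dl]
  | cons t T ih =>
    have h : (fun a : ι → R => ((t :: T).map a).prod) = fun a => a t * (T.map a).prod := by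
      funext a
      rw [List.map_cons, List.prod_cons]
    rw [h]
    exact ih.coord t

theorem Dg.DL (J : List ι) : ∀ {e : ℕ} {F : (ι → R) → R}, Dg (e + J.length) F → Dg e (DL J F) := by
  induction J with
  | nil =>
    intro e F hF
    exact hF
  | cons j J ih =>
    intro e F hF
    have h : Dg (e + 1) (TERM.DL J F) := by
      apply ih
      rw [List.length_cons] at hF
      rw [add_assoc, add_comm 1]
      exact hF
    exact h j

theorem Dg.mono {e e' : ℕ} (h : e ≤ e') {F : (ι → R) → R} (hF : Dg e F) : Dg e' F := by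
  induction h with
  | refl => exact hF
  | step _ ih => exact ih.succ

theorem DL_of_long {J T : List ι} (h : T.length < J.length) :
    DL J (fun a : ι → R => (T.map a).prod) = 0 := by
  have h1 : Dg (0 + J.length) (fun a : ι → R => (T.map a).prod) :=
    (dg_prod T).mono (by omega)
  exact h1.DL J

/-! ### lamplighter computations -/

variable {p m : ℕ}

theorem lampX_pow (n : ℕ) : lampX p m ^ n = ⟨0, (n : ZMod (p ^ m))⟩ := by
  induction n with
  | zero =>
    ext i <;> simp
  | succ n ih =>
    rw [pow_succ, ih]
    ext i <;> simp [lampX]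

open scoped Classical in
theorem lampYs_eq (s : ℕ) : lampYs p m s = ⟨fun i => if i = (s : ZMod (p ^ m)) then 1 else 0, 0⟩ := by
  unfold lampYs
  rw [lampX_pow]
  ext i
  · simp only [Lamp.mul_lamp, Lamp.inv_lamp, lampY, Pi.zero_apply, zero_add, neg_zero, add_zero]
    rw [Pi.single_apply]
    simp only [sub_eq_zero]
  · simp [lampY]

theorem DSl_eq (S : List ℕ) (f : Lamp p m → ZMod p) (a : ZMod (p ^ m) → ZMod p)
    (h : ZMod (p ^ m)) :
    DSl S f ⟨a, h⟩ = DL (S.map (fun s : ℕ => (s : ZMod (p ^ m)) + h)) (fun b => f ⟨b, h⟩) a := by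
  induction S generalizing a with
  | nil => rfl
  | cons s S ih =>
    simp only [DSl, List.map_cons, DL, dl]
    rw [← ih, ← ih]
    have h1 : (⟨a, h⟩ : Lamp p m) * lampYs p m s
        = ⟨fun i => a i + @ite _ (i = (s : ZMod (p ^ m)) + h) (Classical.propDecidable _) 1 0, h⟩ := by
      rw [lampYs_eq]
      ext i
      · simp only [Lamp.mul_lamp, sub_eq_iff_eq_add]
        by_cases hi : i = (s : ZMod (p ^ m)) + h
        · simp only [hi, if_true]
        · simp only [hi, if_false]
      · simp
    rw [h1]

/-! ### arithmetic -/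

theorem four_inj : ∀ b b' a a' : ℕ, 2 * 4 ^ a + 4 ^ b = 2 * 4 ^ a' + 4 ^ b' → b = b' := by
  intro b
  induction b with
  | zero =>
    intro b' a a' h
    cases b' with
    | zero => rfl
    | succ b' =>
      exfalso
      rw [pow_zero, pow_succ] at h
      omega
  | succ b ih =>
    intro b' a a' h
    cases b' with
    | zero =>
      exfalso
      rw [pow_zero, pow_succ] at h
      omega
    | succ b' =>
      cases a with
      | zero =>
        cases a' with
        | zero =>
          have : 4 ^ (b + 1) = 4 ^ (b' + 1) := by omega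
          exact Nat.pow_right_injective (le_refl (2 : ℕ) |>.trans (by norm_num)) this
        | succ a' =>
          exfalso
          rw [pow_zero, pow_succ, pow_succ, pow_succ] at h
          omega
      | succ a =>
        cases a' with
        | zero =>
          exfalso
          rw [pow_zero, pow_succ, pow_succ, pow_succ] at h
          omega
        | succ a' =>
          have h2 : 2 * 4 ^ a + 4 ^ b = 2 * 4 ^ a' + 4 ^ b' := by
            rw [pow_succ, pow_succ, pow_succ, pow_succ] at h
            omega
          rw [ih b' a a' h2]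

theorem mem_SS {i k s : ℕ} (h : s ∈ SS i k) :
    ∃ l ≤ i + k, s = 2 * 4 ^ (Nat.pair (Nat.pair i k) l) := by
  simp only [SS, List.mem_map, List.mem_range] at h
  obtain ⟨l, hl, rfl⟩ := h
  exact ⟨l, by omega, rfl⟩

theorem SS_length (i k : ℕ) : (SS i k).length = i + k + 1 := by
  simp [SS]

theorem exists_bound (L : ℕ) : ∃ B, ∀ i k, i + k ≤ L → ∀ s ∈ SS i k, s ≤ B := by
  refine ⟨∑ i ∈ Finset.range (L + 1), ∑ k ∈ Finset.range (L + 1), (SS i k).sum, ?_⟩
  intro i k hik s hs
  calc s ≤ (SS i k).sum := List.single_le_sum (fun _ _ => Nat.zero_le _) s hs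
    _ ≤ ∑ k ∈ Finset.range (L + 1), (SS i k).sum :=
        Finset.single_le_sum (f := fun k => (SS i k).sum) (fun _ _ => Nat.zero_le _)
          (Finset.mem_range.mpr (by omega))
    _ ≤ _ := Finset.single_le_sum (f := fun i => ∑ k ∈ Finset.range (L + 1), (SS i k).sum)
          (fun _ _ => Nat.zero_le _) (Finset.mem_range.mpr (by omega))

theorem cast_inj {N x y : ℕ} (hx : x < N) (hy : y < N) (h : (x : ZMod N) = (y : ZMod N)) :
    x = y := by
  rw [ZMod.natCast_eq_natCast_iff'] at h
  rwa [Nat.mod_eq_of_lt hx, Nat.mod_eq_of_lt hy] at h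

end TERM

open TERM in
theorem term_thm : TERMStmt := by
  intro p hp d i₀
  obtain ⟨B, hB⟩ := exists_bound (2 * d + i₀ + 1)
  refine ⟨B + 4 ^ d, ?_⟩
  intro m hm l hl g₀
  have hlt : B + 4 ^ d < p ^ m := lt_of_le_of_lt hm (Nat.lt_pow_self hp.out.one_lt)
  have hlt1 : B < p ^ m := lt_of_le_of_lt (Nat.le_add_right _ _) hlt
  -- choice of k1
  obtain ⟨k₁, hk₁, hfree⟩ : ∃ k₁ ≤ d, ∀ i k, i + k ≤ 2 * d + i₀ + 1 → ∀ s ∈ SS i k,
      (s : ZMod (p ^ m)) + (g₀ + ((4 ^ k₁ : ℕ) : ZMod (p ^ m))) ∉ l := by
    by_contra hcon
    push Not at hcon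
    choose! i k hik s hs hsl using hcon
    have hcard : (Finset.range (d + 1)).card ≤ l.toFinset.card := by
      apply Finset.card_le_card_of_injOn
        (fun c => (s c : ZMod (p ^ m)) + (g₀ + ((4 ^ c : ℕ) : ZMod (p ^ m))))
      · intro c hc
        rw [Finset.coe_range, Set.mem_Iio] at hc
        simp only [Finset.mem_coe, List.mem_toFinset]
        exact hsl c (by omega)
      · intro c hc c' hc' hcc
        rw [Finset.coe_range, Set.mem_Iio] at hc hc'
        simp only at hcc
        have h1 : ((s c + 4 ^ c : ℕ) : ZMod (p ^ m)) = ((s c' + 4 ^ c' : ℕ) : ZMod (p ^ m)) := by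
          push_cast
          push_cast at hcc
          linear_combination hcc
        have hsc := hB (i c) (k c) (hik c (by omega)) (s c) (hs c (by omega))
        have hsc' := hB (i c') (k c') (hik c' (by omega)) (s c') (hs c' (by omega))
        have h4 : 4 ^ c ≤ 4 ^ d := Nat.pow_le_pow_right (by norm_num) (by omega)
        have h4' : 4 ^ c' ≤ 4 ^ d := Nat.pow_le_pow_right (by norm_num) (by omega)
        have h2 := cast_inj (by omega) (by omega) h1
        obtain ⟨u, _, hu⟩ := mem_SS (hs c (by omega))
        obtain ⟨u', _, hu'⟩ := mem_SS (hs c' (by omega))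
        rw [hu, hu'] at h2
        exact four_inj _ _ _ _ h2
    rw [Finset.card_range] at hcard
    have := List.toFinset_card_le l
    omega
  set h₀ : ZMod (p ^ m) := g₀ + ((4 ^ k₁ : ℕ) : ZMod (p ^ m)) with hh₀
  classical
  -- the function
  let J : List (ZMod (p ^ m)) := (SS i₀ k₁).map (fun s : ℕ => (s : ZMod (p ^ m)) + h₀)
  let F : (ZMod (p ^ m) → ZMod p) → ZMod p := fun a => (l.map a).prod * (J.map a).prod
  have hJlen : J.length = i₀ + k₁ + 1 := by
    simp only [J, List.length_map, SS_length]
  have hF : F = fun a => ((l ++ J).map a).prod := by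
    funext a
    simp only [F, List.map_append, List.prod_append]
  have hmain : ∀ i k, DL ((SS i k).map (fun s : ℕ => (s : ZMod (p ^ m)) + h₀)) F
      = if i = i₀ ∧ k = k₁ then (fun a => (l.map a).prod) else 0 := by
    intro i k
    split_ifs with hik
    · obtain ⟨rfl, rfl⟩ := hik
      apply DL_full (J := J) (fun a => (l.map a).prod)
      · refine List.Nodup.map_on ?_ ?_
        · intro x hx y hy hxy
          have hx1 := hB _ _ (by omega) x hx
          have hy1 := hB _ _ (by omega) y hy
          exact cast_inj (by omega) (by omega) (add_right_cancel hxy)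
        · refine List.Nodup.map_on ?_ List.nodup_range
          intro x _ y _ hxy
          have h1 : 4 ^ (Nat.pair (Nat.pair i k) x) = 4 ^ (Nat.pair (Nat.pair i k) y) := by omega
          have h2 := Nat.pow_right_injective (show 2 ≤ 4 by norm_num) h1
          exact (Nat.pair_eq_pair.mp h2).2
      · intro j hj
        obtain ⟨s, hs, rfl⟩ := List.mem_map.mp hj
        exact ind_prod (hfree _ _ (by omega) s hs)
    · by_cases hlong : i + k ≤ 2 * d + i₀ + 1
      · have hs : 2 * 4 ^ (Nat.pair (Nat.pair i k) 0) ∈ SS i k := by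
          simp only [SS, List.mem_map, List.mem_range]
          exact ⟨0, by omega, rfl⟩
        apply DL_of_ind (j := ((2 * 4 ^ (Nat.pair (Nat.pair i k) 0) : ℕ) : ZMod (p ^ m)) + h₀)
        · rw [hF]
          apply ind_prod
          rw [List.mem_append, not_or]
          refine ⟨hfree _ _ hlong _ hs, ?_⟩
          intro hj
          obtain ⟨s', hs', hss⟩ := List.mem_map.mp hj
          have hx1 := hB _ _ hlong _ hs
          have hy1 := hB _ _ (by omega) s' hs'
          have h3 := cast_inj (by omega) (by omega) (add_right_cancel hss)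
          obtain ⟨u, _, hu⟩ := mem_SS hs'
          rw [hu] at h3
          have h1 : 4 ^ (Nat.pair (Nat.pair i₀ k₁) u) = 4 ^ (Nat.pair (Nat.pair i k) 0) := by omega
          have h2 := Nat.pow_right_injective (show 2 ≤ 4 by norm_num) h1
          have h4 := Nat.pair_eq_pair.mp (Nat.pair_eq_pair.mp h2).1
          exact hik ⟨h4.1.symm, h4.2.symm⟩
        · exact List.mem_map.mpr ⟨_, hs, rfl⟩
      · rw [hF]
        apply DL_of_long
        rw [List.length_append, hJlen, List.length_map, SS_length]
        omega
  refine ⟨fun q => if q.pos = h₀ then F q.lamp else 0, k₁ + 1, ?_⟩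
  intro K hK i q
  have hterm : ∀ k, DSl (SS i k) (fun q : Lamp p m => if q.pos = h₀ then F q.lamp else 0)
      (q * lampX p m ^ (4 ^ k)) =
      if (i = i₀ ∧ q.pos = g₀) ∧ k = k₁ then (l.map q.lamp).prod else 0 := by
    intro k
    have hq : q * lampX p m ^ (4 ^ k) = ⟨q.lamp, q.pos + ((4 ^ k : ℕ) : ZMod (p ^ m))⟩ := by
      rw [lampX_pow]
      ext j <;> simp
    rw [hq, DSl_eq]
    simp only
    by_cases hpos : q.pos + ((4 ^ k : ℕ) : ZMod (p ^ m)) = h₀
    · rw [hpos]
      simp only [if_true]
      rw [hmain i k]
      by_cases hik : i = i₀ ∧ k = k₁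
      · obtain ⟨rfl, rfl⟩ := hik
        have hpg : q.pos = g₀ := by
          rw [hh₀] at hpos
          exact add_right_cancel hpos
        simp [hpg]
      · have hik2 : ¬ ((i = i₀ ∧ q.pos = g₀) ∧ k = k₁) := by
          rintro ⟨⟨h1, _⟩, h2⟩
          exact hik ⟨h1, h2⟩
        rw [if_neg hik, if_neg hik2, Pi.zero_apply]
    · have hik2 : ¬ ((i = i₀ ∧ q.pos = g₀) ∧ k = k₁) := by
        rintro ⟨⟨_, h1⟩, h2⟩
        apply hpos
        rw [h1, h2]
      rw [if_neg hik2]
      simp only [hpos, if_false]
      have hz : ∀ J : List (ZMod (p ^ m)),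
          DL J (fun _ : ZMod (p ^ m) → ZMod p => (0 : ZMod p)) = 0 := by
        intro J
        induction J with
        | nil => rfl
        | cons j J ih =>
          simp only [DL]
          rw [ih, dl_zero]
      rw [hz, Pi.zero_apply]
  rw [Finset.sum_congr rfl (fun k _ => hterm k)]
  by_cases hc : i = i₀ ∧ q.pos = g₀
  · simp only [hc, and_self, true_and, if_true]
    rw [Finset.sum_ite_eq' (Finset.range K) k₁ (fun _ => (l.map q.lamp).prod),
      if_pos (Finset.mem_range.mpr (by omega))]
  · simp [hc]

end Pool.Agent.H82.PRP
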